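import Pool.Agent.H948.SF.Base

set_option autoImplicit false

/-!
# MP_69dcc1_pr: a level with mean larger than one
-/

namespace Pool.Agent.H187.SF

open MeasureTheory ProbabilityTheory Set Filter Pool.Agent.H948.SF
open scoped ENNReal NNReal Nat Topology

variable {e : ℕ} {lam : ℝ}

theorem TR_mono {R R' : ℕ} (h : R ≤ R') : TR e R ≤ TR e R' :=
  Rs_mono _ fun _ hw => le_trans (show _ ≤ R from hw) h

/-- A path uses finitely many levels. -/
theorem PE_finite {ω : Env (Lab (W e))} {x y : W e} {s t : ℝ} (h : PE (TW e) ω x s y t) :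
    ∃ R, PE (TR e R) ω x s y t := by
  induction h with
  | start => exact ⟨0, PE.refl _ _⟩
  | stay h0 hle hr ih =>
    obtain ⟨R, hR⟩ := ih
    exact ⟨R, hR.stay hle hr⟩
  | @cross y' z' t' h0 ha hlt hm ih =>
    obtain ⟨R, hR⟩ := ih
    refine ⟨max R (max y'.length z'.length), ?_⟩
    refine (hR.mono (TR_mono (le_max_left _ _))).cross ⟨ha, ?_, ?_⟩ hlt hm
    · show y'.length ≤ max R (max y'.length z'.length)
      exact (le_max_left _ _).trans (le_max_right _ _)
    · show z'.length ≤ max R (max y'.length z'.length)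
      exact (le_max_right _ _).trans (le_max_right _ _)

/-- The mean numbers in the first levels approximate the mean number. -/
theorem lt_bR {C : ℝ≥0∞} {n : ℕ} (h : C < bb e lam n) : ∃ R, C < bR e lam R n := by
  classical
  unfold bb at h
  rw [ENNReal.tsum_eq_iSup_sum, lt_iSup_iff] at h
  obtain ⟨s, hs⟩ := h
  have hmono : ∀ w : W e, Monotone fun R : ℕ => {ω | Con (TR e R) ω w (-(n : ℤ)) [] 0} :=
    fun w R R' hRR' ω hω => Con.mono hω (TR_mono hRR')
  have hU : ∀ w : W e, {ω | Con (TW e) ω w (-(n : ℤ)) [] 0} =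
      ⋃ R : ℕ, {ω | Con (TR e R) ω w (-(n : ℤ)) [] 0} := by
    intro w
    ext ω
    simp only [mem_iUnion, mem_ofPred_eq]
    constructor
    · intro hω
      exact PE_finite hω
    · rintro ⟨R, hR⟩
      exact Con.mono hR (Rs_le _ _)
  have hE : ∀ w : W e, mu (W e) lam {ω | Con (TW e) ω w (-(n : ℤ)) [] 0} =
      ⨆ R : ℕ, mu (W e) lam {ω | Con (TR e R) ω w (-(n : ℤ)) [] 0} := by
    intro w
    rw [hU w, (hmono w).measure_iUnion]
  simp only [hE] at hs
  rw [ENNReal.finsetSum_iSup_of_monotone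
    (fun w R R' hRR' => measure_mono (hmono w hRR')), lt_iSup_iff] at hs
  obtain ⟨R, hR⟩ := hs
  exact ⟨R, hR.trans_le (ENNReal.sum_le_tsum s)⟩

theorem hc_pos (h : 0 < lam) : 0 < hc lam := by
  unfold hc
  have : Real.exp (-lam) < 1 := by
    rw [← Real.exp_zero]
    exact Real.exp_lt_exp.2 (by linarith)
  exact mul_pos (Real.exp_pos _) (by linarith)

theorem growth (c : ℕ) : c * (4 * c + 1 + 1) < 2 ^ (4 * c + 1 + 1) := by
  have h1 : 2 * c + 1 < 2 ^ (2 * c + 1) := Nat.lt_two_pow_self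
  have h2 : 2 ^ (4 * c + 1 + 1) = 2 ^ (2 * c + 1) * 2 ^ (2 * c + 1) := by
    rw [← pow_add]
    congr 1
    ring
  rw [h2]
  nlinarith

/-- Sum over the levels. -/
theorem sum_levels (f : W e → ℝ≥0∞) :
    ∑' w, f w = ∑' ℓ : ℕ, ∑' w : {w : W e // w.length = ℓ}, f w := by
  rw [← ENNReal.tsum_sigma' (fun p : (Σ ℓ : ℕ, {w : W e // w.length = ℓ}) => f p.2),
    ← (Equiv.sigmaFiberEquiv (fun w : W e => w.length)).tsum_eq]
  rfl

theorem s_pig (_h3 : S_MEAS) (h6 : S_SUPER) : S_PIG := by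
  intro e lam hlam hC
  set g : ℝ≥0∞ := ENNReal.ofReal (hc lam) * (e + 1) with hg
  have hg0 : g ≠ 0 := by
    rw [hg]
    refine mul_ne_zero ?_ (by simp)
    rw [Ne, ENNReal.ofReal_eq_zero, not_le]
    exact hc_pos hlam
  have hgt : g ≠ ∞ := by
    rw [hg]
    exact ENNReal.mul_ne_top ENNReal.ofReal_ne_top (by finiteness)
  have h2g : 2 / g ≠ ∞ := ENNReal.div_ne_top (by norm_num) hg0
  obtain ⟨n, hn⟩ := hC _ h2g
  obtain ⟨R, hR⟩ := lt_bR hn
  have hbase : 2 ≤ g * bR e lam R n := by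
    have h := (ENNReal.div_lt_iff (Or.inl hg0) (Or.inl hgt)).1 hR
    rw [mul_comm]
    exact h.le
  have hstep : ∀ J : ℕ, 2 ^ (J + 1) ≤ g * bR e lam (J * (R + 1) + R) (J * (n + 1) + n) := by
    intro J
    induction J with
    | zero => simpa using hbase
    | succ J ih =>
      have h := h6 e lam (J * (R + 1) + R) R (J * (n + 1) + n) n hlam
      have e1 : J * (R + 1) + R + 1 + R = (J + 1) * (R + 1) + R := by ring
      have e2 : J * (n + 1) + n + 1 + n = (J + 1) * (n + 1) + n := by ring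
      rw [e1, e2] at h
      calc (2 : ℝ≥0∞) ^ (J + 1 + 1) = 2 ^ (J + 1) * 2 := pow_succ _ _
        _ ≤ (g * bR e lam (J * (R + 1) + R) (J * (n + 1) + n)) * (g * bR e lam R n) :=
            mul_le_mul' ih hbase
        _ = g * (g * bR e lam (J * (R + 1) + R) (J * (n + 1) + n) * bR e lam R n) := by ring
        _ ≤ g * bR e lam ((J + 1) * (R + 1) + R) ((J + 1) * (n + 1) + n) :=
            mul_le_mul' le_rfl h
  obtain ⟨G, hG⟩ := ENNReal.exists_nat_gt hgt
  set c : ℕ := G * (R + 1) with hc'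
  set J : ℕ := 4 * c + 1 with hJ
  set RJ : ℕ := J * (R + 1) + R with hRJ
  set nJ : ℕ := J * (n + 1) + n with hnJ
  by_contra hcon
  push Not at hcon
  have hq : ∀ ℓ : ℕ, ∑' w : {w : W e // w.length = ℓ},
      mu (W e) lam {ω | Con (TR e RJ) ω w (-(nJ : ℤ)) [] 0} ≤ 1 := by
    intro ℓ
    rcases Nat.eq_zero_or_pos ℓ with h | h
    · subst h
      have : Unique {w : W e // w.length = 0} :=
        ⟨⟨⟨[], rfl⟩⟩, fun w => Subtype.ext (List.length_eq_zero_iff.1 w.2)⟩
      rw [tsum_fintype, Fintype.sum_unique]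
      exact prob_le_one
    · exact hcon ℓ nJ RJ h
  have hz : ∀ ℓ : ℕ, ℓ ∉ Finset.range (RJ + 1) → ∑' w : {w : W e // w.length = ℓ},
      mu (W e) lam {ω | Con (TR e RJ) ω w (-(nJ : ℤ)) [] 0} = 0 := by
    intro ℓ hℓ
    rw [ENNReal.tsum_eq_zero]
    rintro ⟨w, hw⟩
    have : {ω : Env (Lab (W e)) | Con (TR e RJ) ω w (-(nJ : ℤ)) [] 0} = ∅ := by
      rw [eq_empty_iff_forall_notMem]
      intro ω hω
      have h1 : w ∈ {w : W e | w.length ≤ RJ} :=
        PE.start_of_Rs (G := TW e) (S := {w : W e | w.length ≤ RJ}) hω (Nat.zero_le _)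
      rw [mem_ofPred_eq, hw] at h1
      exact hℓ (Finset.mem_range.2 (by omega))
    show mu (W e) lam {ω : Env (Lab (W e)) | Con (TR e RJ) ω w (-(nJ : ℤ)) [] 0} = 0
    rw [this, measure_empty]
  have hle : bR e lam RJ nJ ≤ ((RJ + 1 : ℕ) : ℝ≥0∞) := by
    unfold bR
    rw [sum_levels, tsum_eq_sum (s := Finset.range (RJ + 1)) hz]
    refine (Finset.sum_le_sum fun ℓ _ => hq ℓ).trans ?_
    simp
  have hfin := hstep J
  have hlt : g * bR e lam RJ nJ < 2 ^ (J + 1) := by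
    have h1 : (RJ + 1 : ℕ) = (R + 1) * (J + 1) := by
      rw [hRJ]; ring
    have h2 : G * (RJ + 1) < 2 ^ (J + 1) := by
      rw [h1, ← mul_assoc]
      exact growth c
    calc g * bR e lam RJ nJ ≤ (G : ℝ≥0∞) * ((RJ + 1 : ℕ) : ℝ≥0∞) := mul_le_mul' hG.le hle
      _ = ((G * (RJ + 1) : ℕ) : ℝ≥0∞) := by push_cast; ring
      _ < ((2 ^ (J + 1) : ℕ) : ℝ≥0∞) := by exact_mod_cast h2
      _ = 2 ^ (J + 1) := by push_cast; ring
  exact absurd hfin (not_le.2 hlt)

end Pool.Agent.H187.SF
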